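import Pool.Agent.Y269.EL.Stm2

/-!
Existence of dense block data.
-/

set_option autoImplicit false

namespace Pool.Agent.Y386.EL

open Filter Topology Set TopologicalSpace
open Pool.Agent.Y269.EL

/-- The submonoid generated by a separable set is separable. -/
theorem isSeparable_closure {M : Type*} [Monoid M] [TopologicalSpace M] [ContinuousMul M]
    {S : Set M} (hS : IsSeparable S) : IsSeparable (Submonoid.closure S : Set M) := by
  obtain ⟨c, hc, hSc⟩ := hS
  refine ⟨(Submonoid.closure c : Set M), ?_, ?_⟩
  · have hcc : Countable c := hc.to_subtype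
    have h : (Submonoid.closure c : Set M) ⊆
        Set.range (fun l : List c => (l.map (fun x : c => (x : M))).prod) := by
      intro x hx
      obtain ⟨l, hl, rfl⟩ := Submonoid.exists_list_of_mem_closure hx
      refine ⟨l.attach.map (fun y => ⟨y.1, hl y.1 y.2⟩), ?_⟩
      simp [List.map_map, Function.comp_def]
    exact (Set.countable_range _).mono h
  · have h2 : Submonoid.closure S ≤ (Submonoid.closure c).topologicalClosure := by
      rw [Submonoid.closure_le]
      intro x hx
      have := closure_mono (Submonoid.subset_closure (s := c)) (hSc hx)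
      exact this
    exact h2

section

variable {H : Type} [NormedAddCommGroup H] [InnerProductSpace ℂ H] [CompleteSpace H]

theorem continuous_Ub (A : Amb H) (n : ℕ) : Continuous (Ub A n) := by
  unfold Ub
  fun_prop

theorem isSeparable_GM (A : Amb H) : IsSeparable (GM A : Set (H →L[ℂ] H)) := by
  apply isSeparable_closure
  have h : {x | ∃ n, ∃ s ∈ sph n, x = Ub A n s} = ⋃ n, Ub A n '' (sph n) := by
    ext x
    simp only [Set.mem_ofPred_eq, Set.mem_iUnion, Set.mem_image]
    constructor
    · rintro ⟨n, s, hs, rfl⟩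
      exact ⟨n, s, hs, rfl⟩
    · rintro ⟨n, s, hs, rfl⟩
      exact ⟨n, s, hs, rfl⟩
  rw [h]
  refine IsSeparable.iUnion fun n => ?_
  exact (IsSeparable.of_separableSpace (sph n)).image (continuous_Ub A n)

theorem isSeparable_Dom (A : Amb H) (d : ℕ → ℕ) : IsSeparable (Dom A d) := by
  refine IsSeparable.prod (IsSeparable.of_separableSpace _) ?_
  refine IsSeparable.prod (IsSeparable.of_separableSpace _) ?_
  exact IsSeparable.prod (IsSeparable.of_separableSpace _) (isSeparable_GM A)

/-- a point of the product of the spheres -/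
def w0 : Pt := fun _ i => if i = 0 then 1 else 0

theorem w0_mem (d : ℕ → ℕ) : w0 ∈ XX d := by
  intro k
  refine ⟨?_, ?_⟩
  · intro i hi
    have : i ≠ 0 := by omega
    simp [w0, this]
  · simp [w0]

theorem exists_seq (A : Amb H) (d : ℕ → ℕ) : ∃ z : ℕ → ℝ × Pt × Pt × (H →L[ℂ] H),
    (∀ n, z n ∈ Dom A d) ∧ ∀ O : Set (ℝ × Pt × Pt × (H →L[ℂ] H)), IsOpen O →
      (O ∩ Dom A d).Nonempty → ∃ n, z n ∈ O := by
  have hsep := (isSeparable_Dom A d).separableSpace
  have hne : Nonempty (Dom A d) := by
    refine ⟨⟨(0, w0, w0, 1), ?_⟩⟩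
    exact ⟨⟨le_rfl, zero_le_one⟩, w0_mem d, w0_mem d, (GM A).one_mem⟩
  refine ⟨fun n => (denseSeq (Dom A d) n : Dom A d), fun n => (denseSeq (Dom A d) n).2, ?_⟩
  intro O hO hOD
  obtain ⟨y, hyO, hyD⟩ := hOD
  have hopen : IsOpen ((fun x : Dom A d => (x : ℝ × Pt × Pt × (H →L[ℂ] H))) ⁻¹' O) :=
    hO.preimage continuous_subtype_val
  obtain ⟨n, hn⟩ := (denseRange_denseSeq (Dom A d)).exists_mem_open hopen
    ⟨⟨y, hyD⟩, hyO⟩
  exact ⟨n, hn⟩

end

theorem data (H : Type) [NormedAddCommGroup H] [InnerProductSpace ℂ H] [CompleteSpace H] :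
    DataStmt H := by
  classical
  intro A G hG
  obtain ⟨z, hz, hzd⟩ := exists_seq A G.d
  let La : ℕ → Finset ℕ := fun a => (Finset.range a).biUnion G.an
  let ca : ℕ → ℕ := fun m => (Nat.unpair (m / 2)).1
  let cn : ℕ → ℕ := fun m => (Nat.unpair (Nat.unpair (m / 2)).2).1
  refine ⟨⟨fun m => if Even m then ∅ else La (ca m),
    fun m => if Even m then w0 else (z (cn m)).2.1,
    fun m => if Even m then w0 else (z (cn m)).2.2.1,
    fun m => if Even m then 0 else (z (cn m)).1,
    fun m => if Even m then 1 else (z (cn m)).2.2.2⟩, ?_⟩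
  refine ⟨?_, ?_, ?_, ?_, ?_, ?_, ?_⟩
  · intro m k hk
    by_cases hm : Even m
    · simp [hm] at hk
    · simp only [hm, if_false] at hk ⊢
      simp only [La, Finset.mem_biUnion, Finset.mem_range] at hk
      obtain ⟨i, hi, hki⟩ := hk
      refine (hG.an_trans i k hki).trans ?_
      exact Finset.subset_biUnion_of_mem G.an (Finset.mem_range.2 hi)
  · intro m
    by_cases hm : Even m
    · simp only [hm, if_true]
      exact w0_mem G.d
    · simp only [hm, if_false]
      exact (hz (cn m)).2.1
  · intro m
    by_cases hm : Even m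
    · simp only [hm, if_true]
      exact w0_mem G.d
    · simp only [hm, if_false]
      exact (hz (cn m)).2.2.1
  · intro m
    by_cases hm : Even m
    · simp only [hm, if_true]
      exact ⟨le_rfl, zero_le_one⟩
    · simp only [hm, if_false]
      exact (hz (cn m)).1
  · intro m
    by_cases hm : Even m
    · simp only [hm, if_true]
      exact (GM A).one_mem
    · simp only [hm, if_false]
      exact (hz (cn m)).2.2.2
  · intro m hm
    simp [hm]
  · intro a
    refine ⟨La a, ?_, ?_⟩
    · intro i hi
      simp only [La, Finset.mem_biUnion]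
      exact ⟨i, hi, hG.self_mem i⟩
    · intro O hO hOD
      obtain ⟨n, hn⟩ := hzd O hO hOD
      refine Set.infinite_of_injective_forall_mem
        (f := fun r : ℕ => 2 * Nat.pair a (Nat.pair n r) + 1) ?_ ?_
      · intro r r' hr
        have h1 : Nat.pair a (Nat.pair n r) = Nat.pair a (Nat.pair n r') := by
          simp only at hr
          omega
        have h2 := (Nat.pair_eq_pair.1 h1).2
        exact (Nat.pair_eq_pair.1 h2).2
      · intro r
        have hodd : Odd (2 * Nat.pair a (Nat.pair n r) + 1) := ⟨_, rfl⟩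
        have hev : ¬ Even (2 * Nat.pair a (Nat.pair n r) + 1) := Nat.not_even_iff_odd.2 hodd
        have hdiv : (2 * Nat.pair a (Nat.pair n r) + 1) / 2 = Nat.pair a (Nat.pair n r) := by
          omega
        refine ⟨hodd, ?_, ?_⟩
        · simp only [hev, if_false, ca, hdiv, Nat.unpair_pair]
        · simp only [hev, if_false, cn, hdiv, Nat.unpair_pair]
          exact hn

end Pool.Agent.Y386.EL
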