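import Pool.Agent.Y269.EL.Stm2
import Pool.Agent.Y269.EL.Base2

/-!
A non-unitary isometry in the corner of the image of a projection.
-/

set_option autoImplicit false

namespace Pool.Agent.Y386.EL

namespace Sh

open Filter Topology Set
open scoped InnerProductSpace
open Pool.Agent.Y269.EL

set_option linter.unusedSectionVars false

noncomputable section

/-! ### the scalar functions -/

def tt (s : ℝ) : ℝ := max (2 * s - 1) 0

def xx (s : ℝ) : ℝ := max (4 * s - 3) (-1)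

def al (s : ℝ) : ℝ := √(1 - xx s ^ 2)

def be (s : ℝ) : ℝ := max (-(xx s)) 0

def gm (s : ℝ) : ℝ := max (xx s) 0

lemma tt_cont : Continuous tt := by unfold tt; fun_prop

lemma xx_cont : Continuous xx := by unfold xx; fun_prop

lemma al_cont : Continuous al := by
  unfold al
  exact Real.continuous_sqrt.comp (continuous_const.sub (xx_cont.pow 2))

lemma be_cont : Continuous be := by
  unfold be
  exact (xx_cont.neg).max continuous_const

lemma gm_cont : Continuous gm := by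
  unfold gm
  exact xx_cont.max continuous_const

lemma tt_mem {s : ℝ} (hs : s ∈ Icc (0 : ℝ) 1) : tt s ∈ Icc (0 : ℝ) 1 := by
  refine ⟨le_max_right _ _, max_le ?_ zero_le_one⟩
  have := hs.2
  linarith

lemma tt_one : tt 1 = 1 := by unfold tt; norm_num

lemma tt_lip (s s' : ℝ) : |tt s - tt s'| ≤ 2 * |s - s'| := by
  unfold tt
  refine (abs_max_sub_max_le_abs _ _ _).trans ?_
  have : 2 * s - 1 - (2 * s' - 1) = 2 * (s - s') := by ring
  rw [this, abs_mul, abs_of_pos (by norm_num : (0 : ℝ) < 2)]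

lemma xx_mem {s : ℝ} (hs : s ∈ Icc (0 : ℝ) 1) : xx s ∈ Icc (-1 : ℝ) 1 := by
  refine ⟨le_max_right _ _, max_le ?_ (by norm_num)⟩
  have := hs.2
  linarith

lemma sq_sum {s : ℝ} (hs : s ∈ Icc (0 : ℝ) 1) : al s ^ 2 + be s ^ 2 + gm s ^ 2 = 1 := by
  obtain ⟨h1, h2⟩ := xx_mem hs
  have h3 : al s ^ 2 = 1 - xx s ^ 2 := by
    unfold al
    rw [Real.sq_sqrt]
    nlinarith
  rw [h3]
  unfold be gm
  rcases le_total 0 (xx s) with h | h
  · rw [max_eq_right (by linarith), max_eq_left h]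
    ring
  · rw [max_eq_left (by linarith), max_eq_right h]
    ring

lemma be_gm (s : ℝ) : be s * gm s = 0 := by
  unfold be gm
  rcases le_total 0 (xx s) with h | h
  · rw [max_eq_right (by linarith), zero_mul]
  · rw [max_eq_right h, mul_zero]

lemma xx_of_le {s : ℝ} (hs : s ≤ 1 / 2) : xx s = -1 := by
  unfold xx
  exact max_eq_right (by linarith)

lemma al_of_le {s : ℝ} (hs : s ≤ 1 / 2) : al s = 0 := by
  unfold al
  rw [xx_of_le hs]
  norm_num

lemma be_of_le {s : ℝ} (hs : s ≤ 1 / 2) : be s = 1 := by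
  unfold be
  rw [xx_of_le hs]
  norm_num

lemma gm_of_le {s : ℝ} (hs : s ≤ 1 / 2) : gm s = 0 := by
  unfold gm
  rw [xx_of_le hs]
  norm_num

lemma xx_one : xx 1 = 1 := by unfold xx; norm_num

lemma al_one : al 1 = 0 := by unfold al; rw [xx_one]; norm_num

lemma be_one : be 1 = 0 := by unfold be; rw [xx_one]; norm_num

lemma gm_one : gm 1 = 1 := by unfold gm; rw [xx_one]; norm_num

/-! ### algebra -/

section alg

variable {R : Type*} [Ring R] [StarRing R]

lemma alg_main {Φ Z E V S Q : R} (hΦ1 : star Φ = Φ) (hΦ2 : Φ * Φ = Φ) (hZ : star Z * Z = 1)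
    (hE : star E * E = 1) (hZE : star Z * E = 0) (hΦZ : Φ * Z = Z) (hΦE : Φ * E = E)
    (hV : star V * V = 1) (hΦV : Φ * V = V) (hS : star S * S = 1)
    (hSV : star S * (star Z * V) = 0)
    (hQ : Q = Φ - Z * star Z - E * star E) (hQV : Q * V = 0) :
    star (Q + Z * S * star Z + V * star E) * (Q + Z * S * star Z + V * star E) = Φ ∧
      Φ * (Q + Z * S * star Z + V * star E) = Q + Z * S * star Z + V * star E := by
  have hEZ : star E * Z = 0 := by
    have := congrArg star hZE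
    rwa [star_mul, star_star, star_zero] at this
  have hZΦ : star Z * Φ = star Z := by
    have := congrArg star hΦZ
    rwa [star_mul, hΦ1] at this
  have hEΦ : star E * Φ = star E := by
    have := congrArg star hΦE
    rwa [star_mul, hΦ1] at this
  have hQs : star Q = Q := by
    rw [hQ]
    simp only [star_sub, star_mul, star_star, hΦ1]
  have hQZ : Q * Z = 0 := by
    rw [hQ, sub_mul, sub_mul, hΦZ, mul_assoc, hZ, mul_assoc, hEZ]
    simp
  have hQE : Q * E = 0 := by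
    rw [hQ, sub_mul, sub_mul, hΦE, mul_assoc, hZE, mul_assoc, hE]
    simp
  have hZQ : star Z * Q = 0 := by
    have := congrArg star hQZ
    rwa [star_mul, hQs, star_zero] at this
  have hEQ : star E * Q = 0 := by
    have := congrArg star hQE
    rwa [star_mul, hQs, star_zero] at this
  have hVQ : star V * Q = 0 := by
    have := congrArg star hQV
    rwa [star_mul, hQs, star_zero] at this
  have hQQ : Q * Q = Q := by
    have h1 : Q * Q = Q * Φ := by
      conv_lhs => rw [show Q * Q = Q * (Φ - Z * star Z - E * star E) by rw [← hQ]]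
      rw [mul_sub, mul_sub, ← mul_assoc, hQZ, ← mul_assoc, hQE]
      simp
    rw [h1, hQ, sub_mul, sub_mul, hΦ2, mul_assoc, hZΦ, mul_assoc, hEΦ]
  have hΦQ : Φ * Q = Q := by
    rw [hQ, mul_sub, mul_sub, hΦ2, ← mul_assoc, hΦZ, ← mul_assoc, hΦE]
  have hVS : star V * (Z * S) = 0 := by
    have := congrArg star hSV
    rw [star_zero, star_mul, star_mul, star_star, star_star] at this
    rw [← this, mul_assoc]
  refine ⟨?_, ?_⟩
  · have e1 : star (Q + Z * S * star Z + V * star E) =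
        Q + Z * star S * star Z + E * star V := by
      simp only [star_add, star_mul, star_star, hQs, mul_assoc]
    rw [e1]
    have t1 : Q * (Q + Z * S * star Z + V * star E) = Q := by
      rw [mul_add, mul_add, hQQ, ← mul_assoc, ← mul_assoc, hQZ, ← mul_assoc, hQV]
      simp
    have t2 : Z * star S * star Z * (Q + Z * S * star Z + V * star E) = Z * star Z := by
      rw [mul_add, mul_add]
      have a1 : Z * star S * star Z * Q = 0 := by rw [mul_assoc, hZQ, mul_zero]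
      have a2 : Z * star S * star Z * (Z * S * star Z) = Z * star Z := by
        calc Z * star S * star Z * (Z * S * star Z)
            = Z * (star S * ((star Z * Z) * S)) * star Z := by noncomm_ring
          _ = Z * star Z := by rw [hZ, one_mul, hS, mul_one]
      have a3 : Z * star S * star Z * (V * star E) = 0 := by
        calc Z * star S * star Z * (V * star E)
            = Z * (star S * (star Z * V)) * star E := by noncomm_ring
          _ = 0 := by rw [hSV]; simp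
      rw [a1, a2, a3]
      simp
    have t3 : E * star V * (Q + Z * S * star Z + V * star E) = E * star E := by
      rw [mul_add, mul_add]
      have a1 : E * star V * Q = 0 := by rw [mul_assoc, hVQ, mul_zero]
      have a2 : E * star V * (Z * S * star Z) = 0 := by
        calc E * star V * (Z * S * star Z)
            = E * (star V * (Z * S)) * star Z := by noncomm_ring
          _ = 0 := by rw [hVS]; simp
      have a3 : E * star V * (V * star E) = E * star E := by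
        calc E * star V * (V * star E)
            = E * (star V * V) * star E := by noncomm_ring
          _ = E * star E := by rw [hV, mul_one]
      rw [a1, a2, a3]
      simp
    rw [add_mul, add_mul, t1, t2, t3, hQ]
    noncomm_ring
  · rw [mul_add, mul_add, hΦQ, ← mul_assoc, ← mul_assoc, hΦZ, ← mul_assoc, hΦV]

lemma alg_zero {Φ Z S : R} (hΦ1 : star Φ = Φ) (hΦ2 : Φ * Φ = Φ) (hZ : star Z * Z = 1)
    (hΦZ : Φ * Z = Z) (hS : star S * S = 1) :
    star (Φ - Z * star Z + Z * S * star Z) * (Φ - Z * star Z + Z * S * star Z) = Φ ∧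
      Φ * (Φ - Z * star Z + Z * S * star Z) = Φ - Z * star Z + Z * S * star Z ∧
      (Φ - Z * star Z + Z * S * star Z) * star (Φ - Z * star Z + Z * S * star Z) =
        Φ - Z * star Z + Z * (S * star S) * star Z := by
  have hZΦ : star Z * Φ = star Z := by
    have := congrArg star hΦZ
    rwa [star_mul, hΦ1] at this
  have hZZ : ∀ a : R, star Z * (Z * a) = a := fun a => by rw [← mul_assoc, hZ, one_mul]
  have hSS : ∀ a : R, star S * (S * a) = a := fun a => by rw [← mul_assoc, hS, one_mul]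
  have hPZ : ∀ a : R, Φ * (Z * a) = Z * a := fun a => by rw [← mul_assoc, hΦZ]
  refine ⟨?_, ?_, ?_⟩
  · simp only [star_add, star_sub, star_mul, star_star, hΦ1, add_mul, mul_add, sub_mul, mul_sub,
      mul_assoc, hΦ2, hPZ, hZΦ, hZZ, hSS]
    abel
  · simp only [mul_add, mul_sub, mul_assoc, hΦ2, hPZ]
  · simp only [star_add, star_sub, star_mul, star_star, hΦ1, add_mul, mul_add, sub_mul, mul_sub,
      mul_assoc, hΦ2, hPZ, hZΦ, hZZ]
    abel

end alg

/-! ### equicontinuity -/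

section eq

variable {H : Type} [NormedAddCommGroup H] [InnerProductSpace ℂ H] [CompleteSpace H]
variable {T : Type} {K : Set T} {F F' : ℝ → T → (H →L[ℂ] H)}

/-- bounded functions, equicontinuous in the first variable -/
structure EqB (K : Set T) (F : ℝ → T → (H →L[ℂ] H)) : Prop where
  bdd : ∃ C : ℝ, 0 ≤ C ∧ ∀ t ∈ Icc (0 : ℝ) 1, ∀ z ∈ K, ‖F t z‖ ≤ C
  eqc : ∀ ε : ℝ, 0 < ε → ∃ δ : ℝ, 0 < δ ∧ ∀ t ∈ Icc (0 : ℝ) 1, ∀ t' ∈ Icc (0 : ℝ) 1,
    |t - t'| < δ → ∀ z ∈ K, ‖F t z - F t' z‖ ≤ ε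

lemma EqB.const {f : T → (H →L[ℂ] H)} {C : ℝ} (h : ∀ z ∈ K, ‖f z‖ ≤ C) :
    EqB K (fun _ z => f z) where
  bdd := ⟨max C 0, le_max_right _ _, fun _ _ z hz => (h z hz).trans (le_max_left _ _)⟩
  eqc := fun ε hε => ⟨1, one_pos, fun _ _ _ _ _ z _ => by rw [sub_self, norm_zero]; exact hε.le⟩

lemma EqB.add (h : EqB K F) (h' : EqB K F') : EqB K fun t z => F t z + F' t z where
  bdd := by
    obtain ⟨C, hC0, hC⟩ := h.bdd
    obtain ⟨C', hC0', hC'⟩ := h'.bdd
    exact ⟨C + C', by positivity, fun t ht z hz =>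
      (norm_add_le _ _).trans (add_le_add (hC t ht z hz) (hC' t ht z hz))⟩
  eqc := fun ε hε => by
    obtain ⟨δ, hδ, h1⟩ := h.eqc (ε / 2) (by positivity)
    obtain ⟨δ', hδ', h1'⟩ := h'.eqc (ε / 2) (by positivity)
    refine ⟨min δ δ', lt_min hδ hδ', fun t ht t' ht' htt z hz => ?_⟩
    have e1 := h1 t ht t' ht' (htt.trans_le (min_le_left _ _)) z hz
    have e2 := h1' t ht t' ht' (htt.trans_le (min_le_right _ _)) z hz
    calc ‖F t z + F' t z - (F t' z + F' t' z)‖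
        = ‖(F t z - F t' z) + (F' t z - F' t' z)‖ := by congr 1; abel
      _ ≤ ‖F t z - F t' z‖ + ‖F' t z - F' t' z‖ := norm_add_le _ _
      _ ≤ ε := by linarith

lemma EqB.neg (h : EqB K F) : EqB K fun t z => -F t z where
  bdd := by
    obtain ⟨C, hC0, hC⟩ := h.bdd
    exact ⟨C, hC0, fun t ht z hz => by rw [norm_neg]; exact hC t ht z hz⟩
  eqc := fun ε hε => by
    obtain ⟨δ, hδ, h1⟩ := h.eqc ε hε
    refine ⟨δ, hδ, fun t ht t' ht' htt z hz => ?_⟩
    rw [← neg_sub', norm_neg]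
    exact h1 t ht t' ht' htt z hz

lemma EqB.sub (h : EqB K F) (h' : EqB K F') : EqB K fun t z => F t z - F' t z := by
  simp only [sub_eq_add_neg]
  exact h.add h'.neg

lemma EqB.star (h : EqB K F) : EqB K fun t z => star (F t z) where
  bdd := by
    obtain ⟨C, hC0, hC⟩ := h.bdd
    exact ⟨C, hC0, fun t ht z hz => by rw [norm_star]; exact hC t ht z hz⟩
  eqc := fun ε hε => by
    obtain ⟨δ, hδ, h1⟩ := h.eqc ε hε
    refine ⟨δ, hδ, fun t ht t' ht' htt z hz => ?_⟩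
    rw [← star_sub, norm_star]
    exact h1 t ht t' ht' htt z hz

lemma EqB.mul (h : EqB K F) (h' : EqB K F') : EqB K fun t z => F t z * F' t z where
  bdd := by
    obtain ⟨C, hC0, hC⟩ := h.bdd
    obtain ⟨C', hC0', hC'⟩ := h'.bdd
    exact ⟨C * C', by positivity, fun t ht z hz =>
      (norm_mul_le _ _).trans (mul_le_mul (hC t ht z hz) (hC' t ht z hz) (norm_nonneg _) hC0)⟩
  eqc := fun ε hε => by
    obtain ⟨C, hC0, hC⟩ := h.bdd
    obtain ⟨C', hC0', hC'⟩ := h'.bdd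
    obtain ⟨δ, hδ, h1⟩ := h.eqc (ε / (2 * (C' + 1))) (by positivity)
    obtain ⟨δ', hδ', h1'⟩ := h'.eqc (ε / (2 * (C + 1))) (by positivity)
    refine ⟨min δ δ', lt_min hδ hδ', fun t ht t' ht' htt z hz => ?_⟩
    have e1 := h1 t ht t' ht' (htt.trans_le (min_le_left _ _)) z hz
    have e2 := h1' t ht t' ht' (htt.trans_le (min_le_right _ _)) z hz
    have g1 : ‖F t z‖ * ‖F' t z - F' t' z‖ ≤ ε / 2 := by
      calc ‖F t z‖ * ‖F' t z - F' t' z‖ ≤ (C + 1) * (ε / (2 * (C + 1))) :=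
            mul_le_mul ((hC t ht z hz).trans (by linarith)) e2 (norm_nonneg _) (by positivity)
        _ = ε / 2 := by field_simp
    have g2 : ‖F t z - F t' z‖ * ‖F' t' z‖ ≤ ε / 2 := by
      calc ‖F t z - F t' z‖ * ‖F' t' z‖ ≤ (ε / (2 * (C' + 1))) * (C' + 1) :=
            mul_le_mul e1 ((hC' t' ht' z hz).trans (by linarith)) (norm_nonneg _) (by positivity)
        _ = ε / 2 := by field_simp
    calc ‖F t z * F' t z - F t' z * F' t' z‖
        = ‖F t z * (F' t z - F' t' z) + (F t z - F t' z) * F' t' z‖ := by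
          congr 1; noncomm_ring
      _ ≤ ‖F t z * (F' t z - F' t' z)‖ + ‖(F t z - F t' z) * F' t' z‖ := norm_add_le _ _
      _ ≤ ‖F t z‖ * ‖F' t z - F' t' z‖ + ‖F t z - F t' z‖ * ‖F' t' z‖ :=
          add_le_add (norm_mul_le _ _) (norm_mul_le _ _)
      _ ≤ ε := by linarith

lemma norm_one_le' : ‖(1 : H →L[ℂ] H)‖ ≤ 1 := norm_le_one_of_isom (by simp)

lemma EqB.scal {c : ℝ → ℝ} (hc : Continuous c) :
    EqB K (fun t _ => ((c t : ℝ) : ℂ) • (1 : H →L[ℂ] H)) where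
  bdd := by
    obtain ⟨C, hC⟩ := isCompact_Icc.exists_bound_of_continuousOn (s := Icc (0 : ℝ) 1)
      hc.continuousOn
    refine ⟨max C 0, le_max_right _ _, fun t ht z hz => ?_⟩
    rw [norm_smul, Complex.norm_real]
    calc ‖c t‖ * ‖(1 : H →L[ℂ] H)‖ ≤ max C 0 * 1 :=
          mul_le_mul ((hC t ht).trans (le_max_left _ _)) norm_one_le' (norm_nonneg _)
            (le_max_right _ _)
      _ = max C 0 := mul_one _
  eqc := fun ε hε => by
    have h1 := isCompact_Icc.uniformContinuousOn_of_continuous (s := Icc (0 : ℝ) 1)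
      hc.continuousOn
    rw [Metric.uniformContinuousOn_iff] at h1
    obtain ⟨δ, hδ, h2⟩ := h1 ε hε
    refine ⟨δ, hδ, fun t ht t' ht' htt z hz => ?_⟩
    have h3 := h2 t ht t' ht' (by rw [Real.dist_eq]; exact htt)
    rw [Real.dist_eq] at h3
    rw [← sub_smul, norm_smul, ← Complex.ofReal_sub, Complex.norm_real, Real.norm_eq_abs]
    calc |c t - c t'| * ‖(1 : H →L[ℂ] H)‖ ≤ ε * 1 :=
          mul_le_mul h3.le norm_one_le' (norm_nonneg _) hε.le
      _ = ε := mul_one _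

end eq

/-! ### the rows of the connecting map -/

section rows

variable {H : Type} [NormedAddCommGroup H] [InnerProductSpace ℂ H] [CompleteSpace H]
variable {A : Amb H} {G : Geo H} {D : Blk H}

lemma Y1_mem (hD : D.OK A G) (m : ℕ) {w : Pt} (hw : w ∈ XX (G.next A D).d) :
    Y1 D m w ∈ XX G.d := by
  intro k
  unfold Y1
  by_cases hk : k ∈ D.L m
  · simp only [hk, if_true]
    exact hD.p1_mem m k
  · simp only [hk, if_false]
    have h1 := hw (c1 m k)
    have h2 : (G.next A D).d (c1 m k) = G.d k := by simp only [Geo.next, rec3_c1]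
    rwa [h2] at h1

lemma Y2_mem (hD : D.OK A G) (m : ℕ) {w : Pt} (hw : w ∈ XX (G.next A D).d) :
    Y2 D m w ∈ XX G.d := by
  intro k
  unfold Y2
  by_cases hk : k ∈ D.L m
  · simp only [hk, if_true]
    exact hD.p2_mem m k
  · simp only [hk, if_false]
    have h1 := hw (c2 m k)
    have h2 : (G.next A D).d (c2 m k) = G.d k := by simp only [Geo.next, rec3_c2]
    rwa [h2] at h1

lemma hh_mem (hI : IseStmt H) (m : ℕ) {w : Pt} (hw : w ∈ XX (G.next A D).d) :
    hh A G D m w ∈ GM A := by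
  unfold hh
  split_ifs
  · exact (GM A).one_mem
  · exact (hI.ub A _ _ (hw (cS m))).1

lemma norm_gm_le (hI : IseStmt H) {g : H →L[ℂ] H} (hg : g ∈ GM A) : ‖g‖ ≤ 1 :=
  norm_le_one_of_isom (hI.gm A g hg).1

lemma norm_conj_le {U X : H →L[ℂ] H} {C : ℝ} (hU : ‖U‖ ≤ 1) (hX : ‖X‖ ≤ C) :
    ‖U * X * star U‖ ≤ C := by
  have hC : 0 ≤ C := (norm_nonneg _).trans hX
  calc ‖U * X * star U‖ ≤ ‖U * X‖ * ‖star U‖ := norm_mul_le _ _
    _ ≤ (‖U‖ * ‖X‖) * ‖star U‖ := mul_le_mul_of_nonneg_right (norm_mul_le _ _) (norm_nonneg _)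
    _ ≤ (1 * C) * 1 := by
        rw [norm_star]
        exact mul_le_mul (mul_le_mul hU hX (norm_nonneg _) zero_le_one) hU (norm_nonneg _)
          (by positivity)
    _ = C := by ring

variable {F : ℝ → Pt → Pt → (H →L[ℂ] H) → (H →L[ℂ] H)} {C : ℝ}

lemma blkt_le (hI : IseStmt H) (hD : D.OK A G)
    (hF : ∀ t ∈ Icc (0 : ℝ) 1, ∀ u ∈ XX G.d, ∀ v ∈ XX G.d, ∀ g ∈ GM A, ‖F t u v g‖ ≤ C)
    (m : ℕ) {τ : ℝ} (hτ : τ ∈ Icc (0 : ℝ) 1) {w : Pt} (hw : w ∈ XX (G.next A D).d) :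
    ‖blkt A G D m F τ w‖ ≤ C :=
  norm_conj_le (norm_gm_le hI (hh_mem hI m hw))
    (hF τ hτ _ (Y1_mem hD m hw) _ (Y2_mem hD m hw) _ (hD.g_mem m))

lemma Aop_le (hI : IseStmt H) (hG : G.OK) (hD : D.OK A G)
    (hF : ∀ t ∈ Icc (0 : ℝ) 1, ∀ u ∈ XX G.d, ∀ v ∈ XX G.d, ∀ g ∈ GM A, ‖F t u v g‖ ≤ C)
    (i : ℕ) {s : ℝ} (hs : s ∈ Icc (0 : ℝ) 1) {w w' : Pt} (hw : w ∈ XX (G.next A D).d)
    (hw' : w' ∈ XX (G.next A D).d) {g : H →L[ℂ] H} (hg : g ∈ GM A) :
    ‖Aop A G D i F s w w' g‖ ≤ 2 * C := by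
  have hz : (0 : ℝ) ∈ Icc (0 : ℝ) 1 := ⟨le_rfl, zero_le_one⟩
  have hC : 0 ≤ C := (norm_nonneg _).trans (hF 0 hz _ (Y1_mem hD i hw)
    _ (Y1_mem hD i hw) _ (GM A).one_mem)
  unfold Aop
  split_ifs with h
  · have h1 := hF (2 * s) ⟨by linarith [hs.1], by linarith⟩ _ (Y1_mem hD (2 * i) hw)
      _ (Y1_mem hD i hw') _ ((GM A).mul_mem hg (hh_mem hI i hw'))
    linarith
  · have h1 : ‖G.S1 * F 0 (Y1 D (2 * i) w) (Y1 D (2 * i) w) 1 * star G.S1‖ ≤ C :=
      norm_conj_le (norm_le_one_of_isom hG.s11) (hF 0 hz _ (Y1_mem hD _ hw) _ (Y1_mem hD _ hw)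
        _ (GM A).one_mem)
    have hτ : (2 * s - 1) * D.t i ∈ Icc (0 : ℝ) 1 := by
      obtain ⟨h2, h3⟩ := hD.t_mem i
      push Not at h
      refine ⟨mul_nonneg (by linarith) h2, ?_⟩
      calc (2 * s - 1) * D.t i ≤ 1 * 1 :=
            mul_le_mul (by linarith [hs.2]) h3 h2 zero_le_one
        _ = 1 := one_mul 1
    have h2 : ‖G.S2 * g * blkt A G D i F ((2 * s - 1) * D.t i) w' * star g * star G.S2‖ ≤ C := by
      have h3 : G.S2 * g * blkt A G D i F ((2 * s - 1) * D.t i) w' * star g * star G.S2 =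
          G.S2 * (g * blkt A G D i F ((2 * s - 1) * D.t i) w' * star g) * star G.S2 := by
        simp only [mul_assoc]
      rw [h3]
      exact norm_conj_le (norm_le_one_of_isom hG.s22) (norm_conj_le (norm_gm_le hI hg)
        (blkt_le hI hD hF i hτ hw'))
    calc _ ≤ _ := norm_add_le _ _
      _ ≤ 2 * C := by linarith

lemma Phi_row (hI : IseStmt H) (hG : G.OK) (hD : D.OK A G)
    (hF : ∀ t ∈ Icc (0 : ℝ) 1, ∀ u ∈ XX G.d, ∀ v ∈ XX G.d, ∀ g ∈ GM A, ‖F t u v g‖ ≤ C)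
    {s : ℝ} (hs : s ∈ Icc (0 : ℝ) 1) {w w' : Pt} (hw : w ∈ XX (G.next A D).d)
    (hw' : w' ∈ XX (G.next A D).d) {g : H →L[ℂ] H} (hg : g ∈ GM A) (m : ℕ) :
    star (A.R m) * Phi A G D F s w w' g =
      (if Even m then Aop A G D (m / 2) F s w w' g else blkt A G D m F (D.t m) w) *
        star (A.R m) := by
  have hz : (0 : ℝ) ∈ Icc (0 : ℝ) 1 := ⟨le_rfl, zero_le_one⟩
  have hC : 0 ≤ C := (norm_nonneg _).trans (hF 0 hz _ (Y1_mem hD 0 hw)
    _ (Y1_mem hD 0 hw) _ (GM A).one_mem)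
  refine bs_row A (C := 2 * C) (fun k => ?_) m
  split_ifs
  · exact Aop_le hI hG hD hF _ hs hw hw' hg
  · exact (blkt_le hI hD hF k (hD.t_mem k) hw).trans (by linarith)

end rows

section alg2

variable {R : Type*} [Ring R] [StarRing R]

lemma alg_bd1 {Φ1 Φu Φv Zu Zv E S a c g : R}
    (h1 : Φ1 = a * Φu * star a + c * g * Φv * star g * star c) (h2 : a * Zu = Zu)
    (h3 : E = c * g * Zv) :
    Φ1 - Zu * star Zu - E * star E + Zu * S * star Zu + E * S * star E =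
      a * (Φu - Zu * star Zu + Zu * S * star Zu) * star a +
        c * g * (Φv - Zv * star Zv + Zv * S * star Zv) * star g * star c := by
  have h2' : star Zu * star a = star Zu := by
    have := congrArg star h2
    rwa [star_mul] at this
  have h3' : star Zv * star g * star c = star E := by
    rw [h3, star_mul, star_mul, mul_assoc]
  have e : a * (Φu - Zu * star Zu + Zu * S * star Zu) * star a +
        c * g * (Φv - Zv * star Zv + Zv * S * star Zv) * star g * star c =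
      (a * Φu * star a + c * g * Φv * star g * star c) - (a * Zu) * (star Zu * star a)
        - (c * g * Zv) * (star Zv * star g * star c)
        + (a * Zu) * S * (star Zu * star a) +
        (c * g * Zv) * S * (star Zv * star g * star c) := by
    noncomm_ring
  rw [e, h2, h2', h3', ← h3, ← h1]

end alg2

section main

variable {H : Type} [NormedAddCommGroup H] [InnerProductSpace ℂ H] [CompleteSpace H]

def ZZ (A : Amb H) (D : Blk H) (μ : ℕ → ℕ) (x : ℕ → ℝ → Pt → H) (w : Pt) : H →L[ℂ] H :=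
  Zc A μ fun j => x j (D.t (μ j)) w

def EE (A : Amb H) (G : Geo H) (D : Blk H) (μ : ℕ → ℕ) (x : ℕ → ℝ → Pt → H) (s : ℝ)
    (w' : Pt) (g : H →L[ℂ] H) : H →L[ℂ] H :=
  Zc A (fun j => 2 * μ j) fun j => G.S2 (g (x j (tt s * D.t (μ j)) w'))

def VV (A : Amb H) (G : Geo H) (D : Blk H) (μ : ℕ → ℕ) (x : ℕ → ℝ → Pt → H) (s : ℝ)
    (w w' : Pt) (g : H →L[ℂ] H) : H →L[ℂ] H :=
  (((al s : ℝ) : ℂ) • (1 : H →L[ℂ] H)) * (ZZ A D μ x w * G.S2 * g) +
    (((be s : ℝ) : ℂ) • (1 : H →L[ℂ] H)) * EE A G D μ x s w' g +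
    (((gm s : ℝ) : ℂ) • (1 : H →L[ℂ] H)) * (EE A G D μ x s w' g * G.S1)

def QQ (A : Amb H) (G : Geo H) (D : Blk H) (μ : ℕ → ℕ) (x : ℕ → ℝ → Pt → H)
    (P : ℝ → Pt → Pt → (H →L[ℂ] H) → (H →L[ℂ] H)) (s : ℝ)
    (w w' : Pt) (g : H →L[ℂ] H) : H →L[ℂ] H :=
  Phi A G D P s w w' g - ZZ A D μ x w * star (ZZ A D μ x w) -
    EE A G D μ x s w' g * star (EE A G D μ x s w' g)

def WW (A : Amb H) (G : Geo H) (D : Blk H) (μ : ℕ → ℕ) (x : ℕ → ℝ → Pt → H)
    (P : ℝ → Pt → Pt → (H →L[ℂ] H) → (H →L[ℂ] H)) (s : ℝ)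
    (w w' : Pt) (g : H →L[ℂ] H) : H →L[ℂ] H :=
  QQ A G D μ x P s w w' g + ZZ A D μ x w * G.S1 * star (ZZ A D μ x w) +
    VV A G D μ x s w w' g * star (EE A G D μ x s w' g)

variable {A : Amb H} {G : Geo H} {D : Blk H} {μ : ℕ → ℕ} {x : ℕ → ℝ → Pt → H}
  {P : ℝ → Pt → Pt → (H →L[ℂ] H) → (H →L[ℂ] H)}

lemma t_self (hD : D.OK A G) (j : ℕ) : D.t (μ j) ∈ Icc (0 : ℝ) (D.t (μ j)) :=
  ⟨(hD.t_mem _).1, le_rfl⟩

lemma tau_mem (hD : D.OK A G) (j : ℕ) {s : ℝ} (hs : s ∈ Icc (0 : ℝ) 1) :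
    tt s * D.t (μ j) ∈ Icc (0 : ℝ) (D.t (μ j)) := by
  obtain ⟨h1, h2⟩ := tt_mem hs
  have h3 := (hD.t_mem (μ j)).1
  refine ⟨mul_nonneg h1 h3, ?_⟩
  calc tt s * D.t (μ j) ≤ 1 * D.t (μ j) := mul_le_mul_of_nonneg_right h2 h3
    _ = D.t (μ j) := one_mul _

lemma two_mu_inj (hx : Secs A G D P μ x) : Function.Injective fun j => 2 * μ j := by
  intro i j h
  have h1 : 2 * μ i = 2 * μ j := h
  exact hx.inj (by omega)

lemma xn (hD : D.OK A G) (hx : Secs A G D P μ x) {w : Pt} (hw : w ∈ XX (G.next A D).d)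
    (j : ℕ) : ‖x j (D.t (μ j)) w‖ = 1 := hx.norm j _ (t_self hD j) w hw

lemma en (hI : IseStmt H) (hG : G.OK) (hD : D.OK A G) (hx : Secs A G D P μ x) {s : ℝ}
    (hs : s ∈ Icc (0 : ℝ) 1) {w' : Pt} (hw' : w' ∈ XX (G.next A D).d) {g : H →L[ℂ] H}
    (hg : g ∈ GM A) (j : ℕ) : ‖G.S2 (g (x j (tt s * D.t (μ j)) w'))‖ = 1 := by
  rw [norm_ap_of_isom hG.s22, norm_ap_of_isom (hI.gm A g hg).1]
  exact hx.norm j _ (tau_mem hD j hs) w' hw'

lemma ZZ_isom (hD : D.OK A G) (hx : Secs A G D P μ x) {w : Pt}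
    (hw : w ∈ XX (G.next A D).d) : star (ZZ A D μ x w) * ZZ A D μ x w = 1 :=
  Zc_isom A hx.inj (xn hD hx hw)

lemma EE_isom (hI : IseStmt H) (hG : G.OK) (hD : D.OK A G) (hx : Secs A G D P μ x) {s : ℝ}
    (hs : s ∈ Icc (0 : ℝ) 1) {w' : Pt} (hw' : w' ∈ XX (G.next A D).d) {g : H →L[ℂ] H}
    (hg : g ∈ GM A) : star (EE A G D μ x s w' g) * EE A G D μ x s w' g = 1 :=
  Zc_isom A (two_mu_inj hx) (en hI hG hD hx hs hw' hg)

/-- the projection on the odd blocks -/
def Od (A : Amb H) : H →L[ℂ] H := bs A fun m => if Even m then 0 else 1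

lemma Od_bound (m : ℕ) : ‖(if Even m then 0 else 1 : H →L[ℂ] H)‖ ≤ 1 := by
  split_ifs
  · rw [norm_zero]; exact zero_le_one
  · exact norm_one_le'

lemma Od_row (m : ℕ) : star (A.R m) * Od A = (if Even m then 0 else 1) * star (A.R m) :=
  bs_row A Od_bound m

lemma Od_star : star (Od A) = Od A := by
  unfold Od
  rw [← bs_star A Od_bound]
  congr 1
  funext m
  split_ifs <;> simp

lemma Od_ZZ (hD : D.OK A G) (hx : Secs A G D P μ x) {w : Pt} (hw : w ∈ XX (G.next A D).d) :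
    Od A * ZZ A D μ x w = ZZ A D μ x w := by
  refine ext_R A fun m => ?_
  rw [← mul_assoc, Od_row]
  by_cases h : ∃ j, μ j = m
  · obtain ⟨j, rfl⟩ := h
    rw [if_neg (Nat.not_even_iff_odd.mpr (hx.odd j)), one_mul]
  · push Not at h
    have h1 : star (A.R m) * ZZ A D μ x w = 0 :=
      Zc_row_ne A hx.inj (fun j => (xn hD hx hw j).le) h
    rw [mul_assoc, h1, mul_zero]

lemma Od_EE (hI : IseStmt H) (hG : G.OK) (hD : D.OK A G) (hx : Secs A G D P μ x) {s : ℝ}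
    (hs : s ∈ Icc (0 : ℝ) 1) {w' : Pt} (hw' : w' ∈ XX (G.next A D).d) {g : H →L[ℂ] H}
    (hg : g ∈ GM A) : Od A * EE A G D μ x s w' g = 0 := by
  refine ext_R A fun m => ?_
  rw [← mul_assoc, Od_row, mul_zero]
  split_ifs with h
  · rw [zero_mul, zero_mul]
  · have h1 : star (A.R m) * EE A G D μ x s w' g = 0 := by
      refine Zc_row_ne A (two_mu_inj hx) (fun j => (en hI hG hD hx hs hw' hg j).le) fun j hj => ?_
      exact h ⟨μ j, by have h2 : 2 * μ j = m := hj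
                       omega⟩
    rw [one_mul, h1]

lemma ZE (hI : IseStmt H) (hG : G.OK) (hD : D.OK A G) (hx : Secs A G D P μ x) {s : ℝ}
    (hs : s ∈ Icc (0 : ℝ) 1) {w w' : Pt} (hw : w ∈ XX (G.next A D).d)
    (hw' : w' ∈ XX (G.next A D).d) {g : H →L[ℂ] H} (hg : g ∈ GM A) :
    star (ZZ A D μ x w) * EE A G D μ x s w' g = 0 := by
  have h1 : star (ZZ A D μ x w) = star (ZZ A D μ x w) * Od A := by
    conv_lhs => rw [← Od_ZZ hD hx hw, star_mul, Od_star]
  rw [h1, mul_assoc, Od_EE hI hG hD hx hs hw' hg, mul_zero]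

lemma PhiZ (hI : IseStmt H) (hG : G.OK) (hD : D.OK A G) (hx : Secs A G D P μ x) {C : ℝ}
    (hF : ∀ t ∈ Icc (0 : ℝ) 1, ∀ u ∈ XX G.d, ∀ v ∈ XX G.d, ∀ g ∈ GM A, ‖P t u v g‖ ≤ C)
    {s : ℝ} (hs : s ∈ Icc (0 : ℝ) 1) {w w' : Pt} (hw : w ∈ XX (G.next A D).d)
    (hw' : w' ∈ XX (G.next A D).d) {g : H →L[ℂ] H} (hg : g ∈ GM A) :
    Phi A G D P s w w' g * ZZ A D μ x w = ZZ A D μ x w := by
  refine ext_R A fun m => ?_
  rw [← mul_assoc, Phi_row hI hG hD hF hs hw hw' hg, mul_assoc]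
  by_cases h : ∃ j, μ j = m
  · obtain ⟨j, rfl⟩ := h
    have h1 : star (A.R (μ j)) * ZZ A D μ x w = rk (x j (D.t (μ j)) w) (A.b j) :=
      Zc_row A hx.inj (fun j => (xn hD hx hw j).le) j
    rw [if_neg (Nat.not_even_iff_odd.mpr (hx.odd j)), h1, mul_rk,
      hx.fix j _ (t_self hD j) w hw]
  · push Not at h
    have h1 : star (A.R m) * ZZ A D μ x w = 0 :=
      Zc_row_ne A hx.inj (fun j => (xn hD hx hw j).le) h
    rw [h1, mul_zero]

lemma PhiE (hI : IseStmt H) (hG : G.OK) (hD : D.OK A G) (hx : Secs A G D P μ x) {C : ℝ}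
    (hF : ∀ t ∈ Icc (0 : ℝ) 1, ∀ u ∈ XX G.d, ∀ v ∈ XX G.d, ∀ g ∈ GM A, ‖P t u v g‖ ≤ C)
    {s : ℝ} (hs : s ∈ Icc (0 : ℝ) 1) (hs2 : 1 / 2 < s) {w w' : Pt}
    (hw : w ∈ XX (G.next A D).d)
    (hw' : w' ∈ XX (G.next A D).d) {g : H →L[ℂ] H} (hg : g ∈ GM A) :
    Phi A G D P s w w' g * EE A G D μ x s w' g = EE A G D μ x s w' g := by
  refine ext_R A fun m => ?_
  rw [← mul_assoc, Phi_row hI hG hD hF hs hw hw' hg, mul_assoc]
  by_cases h : ∃ j, 2 * μ j = m
  · obtain ⟨j, rfl⟩ := h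
    have h1 : star (A.R (2 * μ j)) * EE A G D μ x s w' g =
        rk (G.S2 (g (x j (tt s * D.t (μ j)) w'))) (A.b j) :=
      Zc_row A (two_mu_inj hx) (fun j => (en hI hG hD hx hs hw' hg j).le) j
    have h2 : 2 * μ j / 2 = μ j := by omega
    have h3 : tt s = 2 * s - 1 := by
      unfold tt
      exact max_eq_left (by linarith)
    rw [if_pos ⟨μ j, by ring⟩, h1, mul_rk, h2]
    congr 1
    unfold Aop
    rw [if_neg (not_le.mpr hs2)]
    have e1 : (star G.S2) (G.S2 (g (x j (tt s * D.t (μ j)) w'))) =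
        g (x j (tt s * D.t (μ j)) w') := by
      rw [← mul_ap, hG.s22]; rfl
    have e2 : (star G.S1) (G.S2 (g (x j (tt s * D.t (μ j)) w'))) = 0 := by
      rw [← mul_ap, hG.s12]; rfl
    have e3 : (star g) (g (x j (tt s * D.t (μ j)) w')) = x j (tt s * D.t (μ j)) w' := by
      rw [← mul_ap, (hI.gm A g hg).1]; rfl
    have e4 : blkt A G D (μ j) P ((2 * s - 1) * D.t (μ j)) w' (x j (tt s * D.t (μ j)) w') =
        x j (tt s * D.t (μ j)) w' := by
      have := hx.fix j _ (tau_mem hD j hs) w' hw'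
      rwa [h3] at this ⊢
    rw [add_apply, mul_ap, e2, map_zero, zero_add, mul_ap, e1, mul_ap, e3, mul_ap, e4, mul_ap]
  · push Not at h
    have h1 : star (A.R m) * EE A G D μ x s w' g = 0 :=
      Zc_row_ne A (two_mu_inj hx) (fun j => (en hI hG hD hx hs hw' hg j).le) h
    rw [h1, mul_zero]

lemma smul_one_star (a : ℝ) : star (((a : ℝ) : ℂ) • (1 : H →L[ℂ] H)) = ((a : ℝ) : ℂ) • 1 := by
  rw [star_smul, star_one]
  congr 1
  exact Complex.conj_ofReal a

lemma smul_one_comm (a : ℂ) (T : H →L[ℂ] H) : T * (a • (1 : H →L[ℂ] H)) = (a • 1) * T := by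
  rw [mul_smul_comm, smul_mul_assoc, one_mul, mul_one]

lemma V_isom {X E S : H →L[ℂ] H} {a b c : ℝ} (habc : a ^ 2 + b ^ 2 + c ^ 2 = 1)
    (hbc : b * c = 0) (hX : star X * X = 1) (hE : star E * E = 1) (hS : star S * S = 1)
    (hXE : star X * E = 0) :
    star ((((a : ℝ) : ℂ) • (1 : H →L[ℂ] H)) * X + (((b : ℝ) : ℂ) • (1 : H →L[ℂ] H)) * E +
      (((c : ℝ) : ℂ) • (1 : H →L[ℂ] H)) * (E * S)) *
      ((((a : ℝ) : ℂ) • (1 : H →L[ℂ] H)) * X + (((b : ℝ) : ℂ) • (1 : H →L[ℂ] H)) * E +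
      (((c : ℝ) : ℂ) • (1 : H →L[ℂ] H)) * (E * S)) = 1 := by
  have hEX : star E * X = 0 := by
    have := congrArg star hXE
    rwa [star_mul, star_star, star_zero] at this
  have hEE : star E * (E * S) = S := by rw [← mul_assoc, hE, one_mul]
  have hXES : star X * (E * S) = 0 := by rw [← mul_assoc, hXE, zero_mul]
  have hSE : star S * (star E * E) = star S := by rw [hE, mul_one]
  have hSEX : star S * (star E * X) = 0 := by rw [hEX, mul_zero]
  have hSEES : star S * (star E * (E * S)) = 1 := by rw [hEE, hS]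
  have e : star ((((a : ℝ) : ℂ) • (1 : H →L[ℂ] H)) * X + (((b : ℝ) : ℂ) • (1 : H →L[ℂ] H)) * E +
      (((c : ℝ) : ℂ) • (1 : H →L[ℂ] H)) * (E * S)) =
      ((a : ℝ) : ℂ) • star X + ((b : ℝ) : ℂ) • star E + ((c : ℝ) : ℂ) • (star S * star E) := by
    simp only [smul_mul_assoc, one_mul, star_add, star_smul, star_mul]
    simp
  rw [e]
  simp only [smul_mul_assoc, one_mul, add_mul, mul_add, mul_smul_comm, hX, hXE, hXES, hE, hEX,
    hEE, mul_assoc, hSEX, hSEES, smul_zero, add_zero, zero_add, mul_one]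
  have hbc1 : ((b : ℝ) : ℂ) * ((c : ℝ) : ℂ) = 0 := by exact_mod_cast hbc
  have hbc2 : ((c : ℝ) : ℂ) * ((b : ℝ) : ℂ) = 0 := by rw [mul_comm]; exact hbc1
  have h1 : ((a : ℝ) : ℂ) * ((a : ℝ) : ℂ) + ((b : ℝ) : ℂ) * ((b : ℝ) : ℂ) +
      ((c : ℝ) : ℂ) * ((c : ℝ) : ℂ) = 1 := by
    have : a * a + b * b + c * c = 1 := by nlinarith
    exact_mod_cast this
  simp only [mul_zero, hS, smul_add, smul_smul, hbc1, hbc2, zero_smul, smul_zero, add_zero,
    zero_add]
  rw [← add_smul, ← add_smul, h1, one_smul]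

lemma mul_VV {s : ℝ} {w w' : Pt} {g T TZ TE : H →L[ℂ] H} (h1 : T * ZZ A D μ x w = TZ)
    (h2 : T * EE A G D μ x s w' g = TE) : T * VV A G D μ x s w w' g =
      (((al s : ℝ) : ℂ) • (1 : H →L[ℂ] H)) * (TZ * G.S2 * g) +
    (((be s : ℝ) : ℂ) • (1 : H →L[ℂ] H)) * TE +
    (((gm s : ℝ) : ℂ) • (1 : H →L[ℂ] H)) * (TE * G.S1) := by
  unfold VV
  rw [← h1, ← h2]
  simp only [smul_mul_assoc, one_mul, mul_add, mul_smul_comm, mul_assoc]

variable (hI : IseStmt H) (hG : G.OK) (hD : D.OK A G) (hx : Secs A G D P μ x)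

include hI hG hD hx

/-- the relations for large times -/
lemma WW_large (hPP : ProjValued A (G.next A D) (Phi A G D P)) {C : ℝ}
    (hF : ∀ t ∈ Icc (0 : ℝ) 1, ∀ u ∈ XX G.d, ∀ v ∈ XX G.d, ∀ g ∈ GM A, ‖P t u v g‖ ≤ C)
    {s : ℝ} (hs : s ∈ Icc (0 : ℝ) 1) (hs2 : 1 / 2 < s) {w w' : Pt}
    (hw : w ∈ XX (G.next A D).d)
    (hw' : w' ∈ XX (G.next A D).d) {g : H →L[ℂ] H} (hg : g ∈ GM A) :
    star (WW A G D μ x P s w w' g) * WW A G D μ x P s w w' g = Phi A G D P s w w' g ∧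
      Phi A G D P s w w' g * WW A G D μ x P s w w' g = WW A G D μ x P s w w' g := by
  obtain ⟨hP1, hP2⟩ := hPP s hs w hw w' hw' g hg
  have hZ := ZZ_isom (A := A) (G := G) hD hx hw
  have hE := EE_isom hI hG hD hx hs hw' hg
  have hZE := ZE hI hG hD hx hs hw hw' hg
  have hΦZ := PhiZ hI hG hD hx hF hs hw hw' hg
  have hΦE := PhiE hI hG hD hx hF hs hs2 hw hw' hg
  have hg1 := (hI.gm A g hg).1
  have hXX : star (ZZ A D μ x w * G.S2 * g) * (ZZ A D μ x w * G.S2 * g) = 1 := by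
    have e : star (ZZ A D μ x w * G.S2 * g) * (ZZ A D μ x w * G.S2 * g) =
        star g * (star G.S2 * (star (ZZ A D μ x w) * ZZ A D μ x w) * G.S2) * g := by
      simp only [star_mul]
      noncomm_ring
    rw [e, hZ, mul_one, hG.s22, mul_one, hg1]
  have hXE : star (ZZ A D μ x w * G.S2 * g) * EE A G D μ x s w' g = 0 := by
    have e : star (ZZ A D μ x w * G.S2 * g) * EE A G D μ x s w' g =
        star g * (star G.S2 * (star (ZZ A D μ x w) * EE A G D μ x s w' g)) := by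
      simp only [star_mul]
      noncomm_ring
    rw [e, hZE, mul_zero, mul_zero]
  have hV : star (VV A G D μ x s w w' g) * VV A G D μ x s w w' g = 1 :=
    V_isom (sq_sum hs) (be_gm s) hXX hE hG.s11 hXE
  have hEZ : star (EE A G D μ x s w' g) * ZZ A D μ x w = 0 := by
    have := congrArg star hZE
    rwa [star_mul, star_star, star_zero] at this
  have hΦV : Phi A G D P s w w' g * VV A G D μ x s w w' g = VV A G D μ x s w w' g :=
    mul_VV hΦZ hΦE
  have hSV : star G.S1 * (star (ZZ A D μ x w) * VV A G D μ x s w w' g) = 0 := by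
    rw [mul_VV hZ hZE, one_mul, zero_mul, mul_zero, add_zero, mul_zero, add_zero,
      smul_mul_assoc, one_mul, mul_smul_comm, ← mul_assoc, hG.s12, zero_mul, smul_zero]
  have hQV : QQ A G D μ x P s w w' g * VV A G D μ x s w w' g = 0 := by
    have hQZ : QQ A G D μ x P s w w' g * ZZ A D μ x w = 0 := by
      unfold QQ
      rw [sub_mul, sub_mul, hΦZ, mul_assoc, hZ, mul_assoc, hEZ]
      simp
    have hQE : QQ A G D μ x P s w w' g * EE A G D μ x s w' g = 0 := by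
      unfold QQ
      rw [sub_mul, sub_mul, hΦE, mul_assoc, hZE, mul_assoc, hE]
      simp
    rw [mul_VV hQZ hQE]
    simp
  exact alg_main hP1 hP2 hZ hE hZE hΦZ hΦE hV hΦV hG.s11 hSV rfl hQV

omit hI hG hD hx in
lemma WW_small_eq {s : ℝ} (hs2 : s ≤ 1 / 2) (w w' : Pt) (g : H →L[ℂ] H) :
    WW A G D μ x P s w w' g = Phi A G D P s w w' g - ZZ A D μ x w * star (ZZ A D μ x w) +
      ZZ A D μ x w * G.S1 * star (ZZ A D μ x w) := by
  unfold WW VV QQ
  rw [al_of_le hs2, be_of_le hs2, gm_of_le hs2]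
  simp only [Complex.ofReal_zero, Complex.ofReal_one, zero_smul, one_smul, zero_mul, one_mul,
    add_zero, zero_add]
  abel

omit hI hG hD hx in
lemma WW_one_eq (w w' : Pt) (g : H →L[ℂ] H) :
    WW A G D μ x P 1 w w' g = Phi A G D P 1 w w' g - ZZ A D μ x w * star (ZZ A D μ x w) -
      EE A G D μ x 1 w' g * star (EE A G D μ x 1 w' g) +
      ZZ A D μ x w * G.S1 * star (ZZ A D μ x w) +
      EE A G D μ x 1 w' g * G.S1 * star (EE A G D μ x 1 w' g) := by
  unfold WW VV QQ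
  rw [al_one, be_one, gm_one]
  simp only [Complex.ofReal_zero, Complex.ofReal_one, zero_smul, one_smul, zero_mul, one_mul,
    add_zero, zero_add]

omit hI hG in
lemma S1ZZ {w : Pt} (hw : w ∈ XX (G.next A D).d) :
    (G.next A D).S1 * ZZ A D μ x w = ZZ A D μ x w := by
  refine ext_R A fun m => ?_
  rcases Nat.even_or_odd m with hm | hm
  · obtain ⟨i, hi⟩ := hm
    have h1 : m = 2 * i := by omega
    have h2 : star (A.R (2 * i)) * ZZ A D μ x w = 0 := by
      refine Zc_row_ne A hx.inj (fun j => (xn hD hx hw j).le) fun j hj => ?_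
      obtain ⟨k, hk⟩ := hx.odd j
      omega
    rw [h1, ← mul_assoc, next_S1_row_even, mul_assoc, h2, mul_zero]
  · rw [← mul_assoc, next_S1_row_odd A G D hm]

lemma EE_one {w' : Pt} (hw' : w' ∈ XX (G.next A D).d) {g : H →L[ℂ] H} (hg : g ∈ GM A) :
    EE A G D μ x 1 w' g = (G.next A D).S2 * g * ZZ A D μ x w' := by
  have h1 : (1 : ℝ) ∈ Icc (0 : ℝ) 1 := ⟨zero_le_one, le_rfl⟩
  refine Zc_unique A (two_mu_inj hx) (fun j => (en hI hG hD hx h1 hw' hg j).le) (fun j => ?_)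
    fun m hm => ?_
  · have h2 : star (A.R (μ j)) * ZZ A D μ x w' = rk (x j (D.t (μ j)) w') (A.b j) :=
      Zc_row A hx.inj (fun j => (xn hD hx hw' j).le) j
    rw [← mul_assoc, ← mul_assoc, next_S2_row_even, mul_assoc G.S2, (hI.gm A g hg).2.2.2.2,
      ← mul_assoc, mul_assoc, h2, mul_rk, tt_one, one_mul, mul_ap]
  · rcases Nat.even_or_odd m with hm' | hm'
    · obtain ⟨i, hi⟩ := hm'
      have h3 : m = 2 * i := by omega
      have h4 : star (A.R i) * ZZ A D μ x w' = 0 := by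
        refine Zc_row_ne A hx.inj (fun j => (xn hD hx hw' j).le) fun j hj => hm j ?_
        show 2 * μ j = m
        omega
      rw [h3, ← mul_assoc, ← mul_assoc, next_S2_row_even, mul_assoc G.S2,
        (hI.gm A g hg).2.2.2.2, ← mul_assoc, mul_assoc, h4, mul_zero]
    · rw [← mul_assoc, ← mul_assoc, next_S2_row_odd A G D hm', zero_mul, zero_mul]

omit hI hG in
lemma ZZ_even {w : Pt} (hw : w ∈ XX (G.next A D).d) (k : ℕ) :
    ZZ A D μ x (flp k w) = ZZ A D μ x w := by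
  unfold ZZ
  congr 1
  funext j
  exact hx.even j _ (t_self hD j) w hw k

omit hI hG in
lemma EE_even {s : ℝ} (hs : s ∈ Icc (0 : ℝ) 1) {w' : Pt} (hw' : w' ∈ XX (G.next A D).d)
    (g : H →L[ℂ] H) (k : ℕ) : EE A G D μ x s (flp k w') g = EE A G D μ x s w' g := by
  unfold EE
  congr 1
  funext j
  rw [hx.even j _ (tau_mem hD j hs) w' hw' k]

lemma EE_neg {s : ℝ} (hs : s ∈ Icc (0 : ℝ) 1) {w' : Pt} (hw' : w' ∈ XX (G.next A D).d)
    {g : H →L[ℂ] H} (hg : g ∈ GM A) : EE A G D μ x s w' (-g) = -EE A G D μ x s w' g := by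
  have hg' := (hI.gm A g hg).2.2.1
  refine Zc_unique A (two_mu_inj hx) (fun j => (en hI hG hD hx hs hw' hg' j).le) (fun j => ?_)
    fun m hm => ?_
  · have h1 : star (A.R (2 * μ j)) * EE A G D μ x s w' g =
        rk (G.S2 (g (x j (tt s * D.t (μ j)) w'))) (A.b j) :=
      Zc_row A (two_mu_inj hx) (fun j => (en hI hG hD hx hs hw' hg j).le) j
    rw [mul_neg, h1]
    ext ξ
    simp only [neg_apply, rk_ap, map_neg, smul_neg]
  · have h1 : star (A.R m) * EE A G D μ x s w' g = 0 :=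
      Zc_row_ne A (two_mu_inj hx) (fun j => (en hI hG hD hx hs hw' hg j).le) hm
    rw [mul_neg, h1, neg_zero]

/-! ### strong continuity and equicontinuity of the pieces -/

omit hI hG in
lemma ZZ_SC : SC (Dom A (G.next A D).d) fun z => ZZ A D μ x z.2.1 := by
  refine SC.Zc A hx.inj (C := 1) (fun j => ?_) (fun j z hz => (xn hD hx hz.2.1 j).le) zero_le_one
  refine (hx.cont j).comp (f := fun z : ℝ × Pt × Pt × (H →L[ℂ] H) => (D.t (μ j), z.2.1)) ?_ ?_
  · fun_prop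
  · intro z hz
    exact ⟨t_self hD j, hz.2.1⟩

lemma EE_SC : SC (Dom A (G.next A D).d) fun z => EE A G D μ x z.1 z.2.2.1 z.2.2.2 := by
  refine SC.Zc A (two_mu_inj hx) (C := 1) (fun j => ?_)
    (fun j z hz => (en hI hG hD hx hz.1 hz.2.2.1 hz.2.2.2 j).le) zero_le_one
  have h1 : ContinuousOn (fun z : ℝ × Pt × Pt × (H →L[ℂ] H) =>
      x j (tt z.1 * D.t (μ j)) z.2.2.1) (Dom A (G.next A D).d) := by
    refine (hx.cont j).comp (f := fun z : ℝ × Pt × Pt × (H →L[ℂ] H) =>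
      (tt z.1 * D.t (μ j), z.2.2.1)) ?_ ?_
    · have := tt_cont
      fun_prop
    · intro z hz
      exact ⟨tau_mem hD j hz.1, hz.2.2.1⟩
  have h2 : ContinuousOn (fun z : ℝ × Pt × Pt × (H →L[ℂ] H) =>
      z.2.2.2 (x j (tt z.1 * D.t (μ j)) z.2.2.1)) (Dom A (G.next A D).d) :=
    ContinuousOn.clm_apply (by fun_prop) h1
  exact G.S2.continuous.comp_continuousOn h2

omit hG hD hx in
lemma g_SC : SC (Dom A (G.next A D).d) fun z => z.2.2.2 := by
  refine SC.of_contOn (C := 1) (by fun_prop) fun z hz => norm_gm_le hI hz.2.2.2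

omit hI hG hD hx in
lemma scal_SC {c : ℝ → ℝ} (hc : Continuous c) :
    SC (Dom A (G.next A D).d) fun z => ((c z.1 : ℝ) : ℂ) • (1 : H →L[ℂ] H) := by
  obtain ⟨C, hC⟩ := isCompact_Icc.exists_bound_of_continuousOn (s := Icc (0 : ℝ) 1)
    hc.continuousOn
  refine SC.of_contOn (C := max C 0) ?_ fun z hz => ?_
  · have : Continuous fun z : ℝ × Pt × Pt × (H →L[ℂ] H) =>
        ((c z.1 : ℝ) : ℂ) • (1 : H →L[ℂ] H) := by
      have h1 : Continuous fun z : ℝ × Pt × Pt × (H →L[ℂ] H) => ((c z.1 : ℝ) : ℂ) :=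
        Complex.continuous_ofReal.comp (hc.comp continuous_fst)
      exact h1.smul continuous_const
    exact this.continuousOn
  · rw [norm_smul, Complex.norm_real]
    calc ‖c z.1‖ * ‖(1 : H →L[ℂ] H)‖ ≤ max C 0 * 1 :=
          mul_le_mul ((hC z.1 hz.1).trans (le_max_left _ _)) norm_one_le' (norm_nonneg _)
            (le_max_right _ _)
      _ = max C 0 := mul_one _

lemma WW_SC (hΦ : IsE A (G.next A D) (Phi A G D P)) : SC (Dom A (G.next A D).d)
    fun z => WW A G D μ x P z.1 z.2.1 z.2.2.1 z.2.2.2 := by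
  have hZ := ZZ_SC (A := A) (G := G) hD hx
  have hE := EE_SC hI hG hD hx
  have hg := g_SC (A := A) (G := G) (D := D) hI
  unfold WW VV QQ
  refine SC.add (SC.add (SC.sub (SC.sub hΦ.sc (hZ.mul hZ.star)) (hE.mul hE.star))
    ((hZ.mul (SC.const _)).mul hZ.star)) (SC.mul ?_ hE.star)
  exact (((scal_SC al_cont).mul ((hZ.mul (SC.const _)).mul hg)).add
    ((scal_SC be_cont).mul hE)).add ((scal_SC gm_cont).mul (hE.mul (SC.const _)))

/-- the domain of the space variables -/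
def Kd (A : Amb H) (d : ℕ → ℕ) : Set (Pt × Pt × (H →L[ℂ] H)) :=
  XX d ×ˢ XX d ×ˢ (GM A : Set (H →L[ℂ] H))

omit hG in
lemma ZZ_EqB : EqB (Kd A (G.next A D).d) fun _ z => ZZ A D μ x z.1 := by
  refine EqB.const (C := 1) fun z hz => ?_
  exact norm_le_one_of_isom (ZZ_isom (A := A) (G := G) hD hx hz.1)

lemma EE_EqB : EqB (Kd A (G.next A D).d) fun s z => EE A G D μ x s z.2.1 z.2.2 where
  bdd := ⟨1, zero_le_one, fun s hs z hz =>
    norm_le_one_of_isom (EE_isom hI hG hD hx hs hz.2.1 hz.2.2)⟩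
  eqc := fun ε hε => by
    obtain ⟨δ, hδ, h1⟩ := hx.eqc ε hε
    refine ⟨δ / 2, by positivity, fun s hs s' hs' hss z hz => ?_⟩
    unfold EE
    rw [Zc_sub A (two_mu_inj hx) (fun j => (en hI hG hD hx hs hz.2.1 hz.2.2 j).le)
      (fun j => (en hI hG hD hx hs' hz.2.1 hz.2.2 j).le)]
    refine norm_Zc_le A (two_mu_inj hx) fun j => ?_
    rw [← map_sub, ← map_sub, norm_ap_of_isom hG.s22, norm_ap_of_isom (hI.gm A _ hz.2.2).1]
    refine h1 j _ (tau_mem hD j hs) _ (tau_mem hD j hs') ?_ _ hz.2.1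
    have h2 := tt_lip s s'
    obtain ⟨h3, h4⟩ := hD.t_mem (μ j)
    rw [← sub_mul, abs_mul, abs_of_nonneg h3]
    calc |tt s - tt s'| * D.t (μ j) ≤ |tt s - tt s'| * 1 :=
          mul_le_mul_of_nonneg_left h4 (abs_nonneg _)
      _ < δ := by linarith

lemma WW_EqB (hΦ : IsE A (G.next A D) (Phi A G D P)) :
    EqB (Kd A (G.next A D).d) fun s z => WW A G D μ x P s z.1 z.2.1 z.2.2 := by
  have hZ := ZZ_EqB (A := A) (G := G) hI hD hx
  have hE := EE_EqB hI hG hD hx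
  have hg : EqB (Kd A (G.next A D).d) fun _ z => z.2.2 :=
    EqB.const (C := 1) fun z hz => norm_gm_le hI hz.2.2
  have hc : ∀ T : H →L[ℂ] H, EqB (Kd A (G.next A D).d) fun _ _ => T :=
    fun T => EqB.const (f := fun _ => T) (C := ‖T‖) fun _ _ => le_rfl
  have hP : EqB (Kd A (G.next A D).d) fun s z => Phi A G D P s z.1 z.2.1 z.2.2 := by
    refine ⟨?_, fun ε hε => ?_⟩
    · obtain ⟨C, hC⟩ := hΦ.sc.bdd
      refine ⟨max C 0, le_max_right _ _, fun s hs z hz => ?_⟩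
      exact (hC (s, z) ⟨hs, hz⟩).trans (le_max_left _ _)
    · obtain ⟨δ, hδ, h1⟩ := hΦ.eqc ε hε
      exact ⟨δ, hδ, fun s hs s' hs' hss z hz => h1 s hs s' hs' hss _ hz.1 _ hz.2.1 _ hz.2.2⟩
  unfold WW VV QQ
  refine EqB.add (EqB.add (EqB.sub (EqB.sub hP (hZ.mul hZ.star)) (hE.mul hE.star))
    ((hZ.mul (hc _)).mul hZ.star)) (EqB.mul ?_ hE.star)
  exact (((EqB.scal al_cont).mul ((hZ.mul (hc _)).mul hg)).add
    ((EqB.scal be_cont).mul hE)).add ((EqB.scal gm_cont).mul (hE.mul (hc _)))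

lemma WW_isE (hΦ : IsE A (G.next A D) (Phi A G D P)) :
    IsE A (G.next A D) (WW A G D μ x P) where
  sc := WW_SC hI hG hD hx hΦ
  eqc := fun ε hε => by
    obtain ⟨δ, hδ, h1⟩ := (WW_EqB hI hG hD hx hΦ).eqc ε hε
    exact ⟨δ, hδ, fun s hs s' hs' hss u hu v hv g hg =>
      h1 s hs s' hs' hss (u, v, g) ⟨hu, hv, hg⟩⟩
  ev1 := fun s hs u hu v hv g hg k => by
    unfold WW VV QQ
    rw [hΦ.ev1 s hs u hu v hv g hg k, ZZ_even (G := G) hD hx hu k]
  ev2 := fun s hs u hu v hv g hg k => by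
    unfold WW VV QQ
    rw [hΦ.ev2 s hs u hu v hv g hg k, EE_even (G := G) hD hx hs hv g k]
  ev3 := fun s hs u hu v hv g hg => by
    unfold WW VV QQ
    rw [hΦ.ev3 s hs u hu v hv g hg, EE_neg hI hG hD hx hs hv hg]
    simp only [star_neg, mul_neg, neg_mul, neg_neg, smul_mul_assoc, one_mul, add_mul]
    abel
  bd0 := fun u hu v hv g hg => by
    rw [WW_small_eq (by norm_num), WW_small_eq (by norm_num), hΦ.bd0 u hu v hv g hg]
  bd1 := fun u hu v hv g hg => by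
    rw [WW_one_eq, WW_small_eq (by norm_num), WW_small_eq (by norm_num)]
    exact alg_bd1 (hΦ.bd1 u hu v hv g hg) (S1ZZ hD hx hu) (EE_one hI hG hD hx hv hg)

end main

end

end Sh

open Pool.Agent.Y269.EL Set in
theorem shift (H : Type) [NormedAddCommGroup H] [InnerProductSpace ℂ H] [CompleteSpace H]
    [Nontrivial H] (hI : IseStmt H) : ShiftStmt H := by
  intro A G D hG hD hG' P hP hPP hΦ hΦP μ x hx
  obtain ⟨C, hC⟩ := hP.sc.bdd
  have hF : ∀ t ∈ Icc (0 : ℝ) 1, ∀ u ∈ XX G.d, ∀ v ∈ XX G.d, ∀ g ∈ GM A, ‖P t u v g‖ ≤ C :=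
    fun t ht u hu v hv g hg => hC (t, u, v, g) ⟨ht, hu, hv, hg⟩
  have hs0 : (0 : ℝ) ∈ Icc (0 : ℝ) 1 := ⟨le_rfl, zero_le_one⟩
  refine ⟨Sh.WW A G D μ x P, Sh.WW_isE hI hG hD hx hΦ, ?_, ?_⟩
  · intro s hs w hw w' hw' g hg
    rcases le_or_gt s (1 / 2) with h | h
    · obtain ⟨h1, h2⟩ := hΦP s hs w hw w' hw' g hg
      rw [Sh.WW_small_eq h]
      obtain ⟨h3, h4, _⟩ := Sh.alg_zero h1 h2 (Sh.ZZ_isom (A := A) (G := G) hD hx hw)
        (Sh.PhiZ hI hG hD hx hF hs hw hw' hg) hG.s11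
      exact ⟨h3, h4⟩
    · exact Sh.WW_large hI hG hD hx hΦP hF hs h hw hw' hg
  · obtain ⟨w, hw⟩ := (hI.cpt (G.next A D).d).2
    refine ⟨0, hs0, w, hw, w, hw, 1, (GM A).one_mem, ?_⟩
    obtain ⟨h1, h2⟩ := hΦP 0 hs0 w hw w hw 1 (GM A).one_mem
    have hZ := Sh.ZZ_isom (A := A) (G := G) hD hx hw
    rw [Sh.WW_small_eq (by norm_num), (Sh.alg_zero h1 h2 hZ
      (Sh.PhiZ hI hG hD hx hF hs0 hw hw (GM A).one_mem) hG.s11).2.2]
    intro he
    have h3 : Sh.ZZ A D μ x w * (G.S1 * star G.S1) * star (Sh.ZZ A D μ x w) =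
        Sh.ZZ A D μ x w * star (Sh.ZZ A D μ x w) := by
      rw [sub_add, sub_eq_self, sub_eq_zero] at he
      exact he.symm
    have h4 : G.S1 * star G.S1 = 1 := by
      have e1 : star (Sh.ZZ A D μ x w) * (Sh.ZZ A D μ x w * (G.S1 * star G.S1) *
          star (Sh.ZZ A D μ x w)) * Sh.ZZ A D μ x w = G.S1 * star G.S1 := by
        calc _ = (star (Sh.ZZ A D μ x w) * Sh.ZZ A D μ x w) * (G.S1 * star G.S1) *
              (star (Sh.ZZ A D μ x w) * Sh.ZZ A D μ x w) := by noncomm_ring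
          _ = _ := by rw [hZ, one_mul, mul_one]
      rw [h3] at e1
      rw [← e1, ← mul_assoc, hZ, one_mul, hZ]
    have h5 : G.S2 * star G.S2 = 0 := by
      have := hG.sum_one
      rwa [h4, add_eq_left] at this
    have h6 : star G.S2 * G.S2 * (star G.S2 * G.S2) = 0 := by
      calc _ = star G.S2 * (G.S2 * star G.S2) * G.S2 := by noncomm_ring
        _ = 0 := by rw [h5]; simp
    rw [hG.s22, mul_one] at h6
    exact one_ne_zero h6

end Pool.Agent.Y386.EL
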